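import Pool.Agent.N276.ER.Main
import Pool.Agent.N276.ER.Env
import Pool.Agent.N276.ER.Meas
import Pool.Agent.N276.ER.Inf
import Pool.Agent.N276.ER.Law
import Pool.Agent.N276.ER.Transfer
import Pool.Agent.N276.ER.Right
import Pool.Agent.N276.ER.Left
import Pool.Agent.N276.ER.Sup
import Pool.Agent.N276.ER.Wald
import Pool.Agent.N276.ER.Tail
import Pool.Agent.N276.ER.Mom2
import Pool.Agent.N276.ER.LMean
import Pool.Agent.N276.ER.Lyap
import Pool.Agent.N276.ER.Kern
import Pool.Agent.N276.ER.Markov
import Pool.Agent.N276.ER.Die
import Pool.Agent.N276.ER.Surv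
import Pool.Agent.N276.ER.IO
import Pool.Agent.N276.ER.Lim

/-!
# MP_758450_pr, Q1: right transient excited random walk with `μ = θ = 1`

There is an identically piled, uniformly elliptic environment `p` with `μ = 1` and `θ = 1` such that
the excited random walk in the environment `p` is right transient.

The sequence `p` is indexed from `0`: `p i` is the probability of a step to the right at the
`(i+1)`-st visit to a site. The definitions of the random variable `U x` (`U(x)`, on the space of
sequences of trials with the law `stackLaw p`) and of the walk (`IsERW`) are in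
`Pool.Agent.N276.ER.Def`; those of `rho`, `nu`, `theta` and `RightTransient` are in
`Pool.Agent.N276.ER.Main`.
-/

set_option autoImplicit false

open MeasureTheory ProbabilityTheory Filter Topology
open scoped ENNReal

namespace Pool.Agent.Results.MP_758450_pr.RightTransientCriticalERW

open Pool.Agent.N276.ER

/-- There is a uniformly elliptic environment `p` with `μ = lim E[U(x)]/x = 1` and
`θ = lim 2 ρ(x)/ν(x) = 1` in which the excited random walk is right transient. The first and second
moments of `U(x)` are finite, and the walk exists. -/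
theorem result.{u} : ∃ p : ℕ → ℝ,
    (∃ ε : ℝ, 0 < ε ∧ ∀ i, ε ≤ p i ∧ p i ≤ 1 - ε) ∧
    (∀ x, Integrable (fun s => (U x s : ℝ)) (stackLaw p)) ∧
    (∀ x, Integrable (fun s => (U x s : ℝ) ^ 2) (stackLaw p)) ∧
    Tendsto (fun x : ℕ => (∫ s, (U x s : ℝ) ∂(stackLaw p)) / x) atTop (𝓝 1) ∧
    Tendsto (fun x : ℕ => theta p 1 x) atTop (𝓝 1) ∧
    (∃ (Ω : Type) (_ : MeasurableSpace Ω) (P : Measure Ω) (X : ℕ → Ω → ℤ), IsERW p P X) ∧
    RightTransient.{u} p := by
  have hP : StmProb := prob env
  have hI : StmInf := inf hP env
  have hW : StmWald := wald hP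
  have hM2 : StmMom2 := mom2 hP env hI hW (tail hP env hI)
  have hK : StmKern := kern hP meas env hI hW (tail hP env hI) hM2 lyap
  have hIO : StmIO := io hP meas (push hP) (surv hP meas env hI (markov hP) hK)
  have hD : StmDieQ := dieQ hP meas (push hP)
    (die hP meas env hI (markov hP) (lmean hP env hW))
  exact ⟨pp, main_of_parts env (good_all hP hI) hW (lim hP meas env hI hW hM2)
    (law hP meas env) transfer right left sup hIO hD⟩

end Pool.Agent.Results.MP_758450_pr.RightTransientCriticalERW
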